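import Pool.Agent.Y682.XD.Alg
import Pool.Agent.Y687.Main
import Pool.Agent.W2helper41.X.Inz

/-!
# The ranks over multiquadratic fields
-/

set_option autoImplicit false

open NumberField IsDedekindDomain Finset

namespace Pool.Agent.W2helper41.Y

open scoped Classical

open Pool.Agent.TH841.NF.D (rk)

open Pool.Agent.Y682 (gc)

open Pool.Agent.Y682.XD

open Pool.Agent.W2helper41.X (Spl Ine mat zero_sha)

/-- the good twists -/
def Reg (d : ℕ) : Prop := ∃ T P : Finset ℕ, (∀ q ∈ T, Ine q) ∧ (∀ p ∈ P, Spl p) ∧ P.card ≤ 2 ∧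
  d = (∏ q ∈ T, q) * ∏ i ∈ P, i ∧ (mat P (∏ q ∈ T, q)).det ≠ 0

/-- the good twists up to squares -/
def RegZ (c : ℤ) : Prop := ∃ d : ℕ, Reg d ∧ ∃ g : ℤ, g ≠ 0 ∧ c = (d : ℤ) * g ^ 2

theorem Reg.four {d : ℕ} (h : Reg d) : d % 4 = 1 := by
  obtain ⟨T, P, hT, hP, -, rfl, -⟩ := h
  exact Pool.Agent.W2helper41.X.prod_four hP hT

theorem Reg.sqf {d : ℕ} (h : Reg d) : Squarefree d := by
  obtain ⟨T, P, hT, hP, -, rfl, -⟩ := h
  have hTp : ∀ q ∈ T, q.Prime := fun q hq => (hT q hq).1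
  have hPp : ∀ q ∈ P, q.Prime := fun q hq => (hP q hq).1
  rw [Nat.squarefree_mul_iff]
  refine ⟨?_, Y687.squarefree_prod hTp, Y687.squarefree_prod hPp⟩
  refine Nat.Coprime.prod_left fun q hq => Nat.Coprime.prod_right fun p hp => ?_
  rw [Nat.coprime_primes (hTp q hq) (hPp p hp)]
  rintro rfl
  have h1 := (hP q hp).2.1
  have h2 := (hT q hq).2.1
  omega

/-- the rank of a good twist -/
theorem reg_rank {d : ℕ} (h : Reg d) : RR ℚ (d : ℤ) = 0 := by
  obtain ⟨T, P, hT, hP, -, rfl, hdet⟩ := h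
  have h1 := (zero_sha hP hT hdet).1
  unfold RR
  rw [← h1]
  congr 1
  unfold gc Y682.wc
  ext <;> push_cast <;> rfl

theorem regz_rank (hSQ : S_SQ) {c : ℤ} (h : RegZ c) : RR ℚ c = 0 := by
  obtain ⟨d, hd, g, hg, rfl⟩ := h
  have hd0 : (d : ℤ) ≠ 0 := by exact_mod_cast hd.sqf.ne_zero
  have hd2 : (d : ℤ) ^ 2 ≠ 0 := pow_ne_zero 2 hd0
  have h2 := hSQ ℚ (13 * (d : ℤ)) (128 * (d : ℤ) ^ 2) g (mul_ne_zero (by norm_num) hd2) (by
    have e1 : (13 * (d : ℤ)) ^ 2 - 4 * (128 * (d : ℤ) ^ 2) = -343 * (d : ℤ) ^ 2 := by ring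
    rw [e1]
    exact mul_ne_zero (by norm_num) hd2) hg
  have h3 := reg_rank hd
  unfold RR at h3 ⊢
  rw [h3] at h2
  rw [← h2]
  congr 2
  · ring
  · ring

/-- **the rank zero** -/
theorem rank_zero' (hQF : S_QF) (hDEG : S_DEG2) (hRKE : S_RKE) (hSQ : S_SQ) (S : Finset ℤ) :
    (∀ d ∈ S, d ≠ 0) → FiniteDimensional ℚ (mq S) ∧
    ∀ (F₀ : IntermediateField ℚ ℂ) [NumberField F₀], F₀ = mq S →
      ∀ c : ℤ, c ≠ 0 → (∀ A ⊆ S, RegZ (c * ∏ d ∈ A, d)) → RR F₀ c = 0 := by
  induction S using Finset.induction_on with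
  | empty =>
    intro _
    refine ⟨?_, ?_⟩
    · rw [mq_empty]; infer_instance
    · intro F₀ _ hF₀ c hc hA
      rw [mq_empty] at hF₀
      subst hF₀
      have hq : RR ℚ c = RR (⊥ : IntermediateField ℚ ℂ) c :=
        RR_iso hRKE (IntermediateField.botEquiv ℚ ℂ).symm.toRingEquiv hc
      rw [← hq]
      have h1 := hA ∅ (Finset.Subset.refl _)
      rw [prod_empty, mul_one] at h1
      exact regz_rank hSQ h1
  | insert d S hdS ih =>
    intro hS
    obtain ⟨hfd, ih'⟩ := ih (fun e he => hS e (Finset.mem_insert_of_mem he))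
    have hd := hS d (Finset.mem_insert_self _ _)
    obtain ⟨z, hz⟩ : ∃ z : ℂ, z ^ 2 = (d : ℂ) := IsAlgClosed.exists_pow_nat_eq _ (by norm_num)
    have hins := mq_insert S d hz
    have hG₀ : NumberField (mq S) := { to_charZero := inferInstance, to_finiteDimensional := hfd }
    by_cases hz0 : z ∈ mq S
    · have hins' : mq (insert d S) = mq S := by
        rw [hins]
        exact sup_eq_left.2 ((IntermediateField.adjoin_simple_le_iff).2 hz0)
      rw [hins']
      refine ⟨hfd, fun F₀ _ hF₀ c hc hA => ih' F₀ hF₀ c hc fun A hA' => hA A ?_⟩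
      exact hA'.trans (Finset.subset_insert _ _)
    · refine ⟨?_, ?_⟩
      · rw [hins]
        have : FiniteDimensional ℚ (IntermediateField.adjoin ℚ {z} : IntermediateField ℚ ℂ) :=
          IntermediateField.adjoin.finiteDimensional ⟨Polynomial.X ^ 2 - Polynomial.C (d : ℚ),
            Polynomial.monic_X_pow_sub_C _ (by norm_num), by
              rw [Polynomial.eval₂_sub, Polynomial.eval₂_pow, Polynomial.eval₂_X,
                Polynomial.eval₂_C, hz, map_intCast, sub_self]⟩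
        exact IntermediateField.finiteDimensional_sup _ _
      · intro F₀ _ hF₀ c hc hA
        rw [RR_quad hQF hDEG (mq S) F₀ hd hz0 hz (hF₀.trans hins) hc,
          ih' (mq S) rfl c hc fun A hA' => hA A (hA'.trans (Finset.subset_insert _ _)),
          ih' (mq S) rfl (c * d) (mul_ne_zero hc hd) fun A hA' => ?_]
        have h1 := hA (insert d A) (Finset.insert_subset_insert _ hA')
        rw [prod_insert fun h => hdS (hA' h), ← mul_assoc] at h1
        exact h1

end Pool.Agent.W2helper41.Y
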