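import Pool.Agent.Y682.XD.Bas
import Pool.Agent.Y682.XD.SymO
import Pool.Agent.W2helper41.X.Val
import Pool.Agent.W2helper41.Y.Rk

/-!
# The characters of the multiquadratic field
-/

set_option autoImplicit false

open Finset NumberField IsCyclotomicExtension.Rat H300.HW
open scoped symmDiff

namespace Pool.Agent.W2helper41.Y

open scoped Classical

open Pool.Agent.W97.MT (ap E14 II)

open Pool.Agent.Y18.BSD

open Pool.Agent.Y687 (Symb2)

theorem prod_symm {ι R : Type} [DecidableEq ι] [CommSemiring R] (U V : Finset ι) (f : ι → R) :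
    (∏ i ∈ U ∆ V, f i) * (∏ i ∈ U ∩ V, f i) ^ 2 = (∏ i ∈ U, f i) * ∏ i ∈ V, f i := by
  have h1 : (∏ i ∈ U ∩ V, f i) * ∏ i ∈ U \ V, f i = ∏ i ∈ U, f i := prod_inter_mul_prod_sdiff U V f
  have h2 : (∏ i ∈ V ∩ U, f i) * ∏ i ∈ V \ U, f i = ∏ i ∈ V, f i := prod_inter_mul_prod_sdiff V U f
  have h3 : ∏ i ∈ U ∆ V, f i = (∏ i ∈ U \ V, f i) * ∏ i ∈ V \ U, f i := by
    rw [symmDiff_def, sup_eq_union, prod_union]
    rw [Finset.disjoint_left]
    intro a ha hb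
    exact (mem_sdiff.1 hb).2 (mem_sdiff.1 ha).1
  rw [← h1, ← h2, h3, inter_comm V U]
  ring

/-- a square divided by a square -/
theorem sq_of_mul {x w : ℤ} (hw : w ≠ 0) (h : IsSquare (x * w ^ 2)) : IsSquare x := by
  obtain ⟨y, hy⟩ := h
  have h1 : w ^ 2 ∣ y ^ 2 := ⟨x, by rw [sq y, ← hy]; ring⟩
  rw [Int.pow_dvd_pow_iff two_ne_zero] at h1
  obtain ⟨t, rfl⟩ := h1
  refine ⟨t, mul_right_cancel₀ (pow_ne_zero 2 hw) ?_⟩
  rw [hy]; ring

/-- squarefree numbers whose product is a square -/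
theorem eq_of_sq {a b : ℕ} (ha : Squarefree a) (hb : Squarefree b)
    (h : IsSquare ((a : ℤ) * (b : ℤ))) : a = b := by
  have h0 : IsSquare (a * b) := by
    obtain ⟨y, hy⟩ := h
    refine ⟨y.natAbs, ?_⟩
    have h2 := congrArg Int.natAbs hy
    rwa [Int.natAbs_mul, Int.natAbs_mul, Int.natAbs_natCast, Int.natAbs_natCast] at h2
  obtain ⟨y, hy⟩ := h0
  have h1 : a ∣ y ^ 2 := ⟨b, by rw [sq, ← hy]⟩
  rw [ha.dvd_pow_iff_dvd two_ne_zero] at h1
  obtain ⟨t, rfl⟩ := h1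
  have ha0 : a ≠ 0 := ha.ne_zero
  have h3 : b = a * (t * t) := by
    apply mul_left_cancel₀ ha0
    rw [hy]; ring
  have h4 : IsUnit t := hb t ⟨a, by rw [h3]; ring⟩
  rw [Nat.isUnit_iff] at h4
  rw [h3, h4, mul_one, mul_one]

/-- the discriminant of a product of primes that are one modulo four -/
theorem disc_eq {T : Finset ℕ} (h : ∀ p ∈ T, p % 4 = 1) : disc T = ((∏ p ∈ T, p : ℕ) : ℤ) := by
  unfold disc
  rw [Nat.cast_prod]
  refine prod_congr rfl fun p hp => ?_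
  have h9 : Even ((p - 1) / 2) := by
    rw [Nat.even_iff]
    have := h p hp
    omega
  rw [h9.neg_one_pow, one_mul]

theorem Reg.primes {d : ℕ} (h : Reg d) {p : ℕ} (hp : p.Prime) (hd : p ∣ d) : p % 4 = 1 := by
  obtain ⟨T, P, hT, hP, -, rfl, -⟩ := h
  rcases (hp.dvd_mul).1 hd with h | h
  · have := (hT p (Y687.dvd_prod_primes (fun q hq => (hT q hq).1) hp h)).2.1
    omega
  · have := (hP p (Y687.dvd_prod_primes (fun q hq => (hP q hq).1) hp h)).2.1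
    omega

theorem Reg.not_dvd {d : ℕ} (h : Reg d) {p : ℕ} (hp : p.Prime) (hd : p ∣ d) : ¬ p ∣ 14 := by
  have h4 := h.primes hp hd
  obtain ⟨T, P, hT, hP, -, rfl, -⟩ := h
  intro h14
  rw [show 14 = 2 * 7 by norm_num, hp.dvd_mul] at h14
  rcases h14 with h | h
  · have := (Nat.prime_dvd_prime_iff_eq hp Nat.prime_two).1 h
    omega
  · have := (Nat.prime_dvd_prime_iff_eq hp (by norm_num)).1 h
    omega

/-- a squarefree good twist is positive and good -/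
theorem RegZ.sqf {d : ℤ} (h : RegZ d) (hd : Squarefree d) : ∃ n : ℕ, Reg n ∧ d = (n : ℤ) := by
  obtain ⟨n, hn, g, hg, rfl⟩ := h
  have h1 : IsUnit g := hd g ⟨(n : ℤ), by ring⟩
  refine ⟨n, hn, ?_⟩
  rcases Int.isUnit_iff.1 h1 with h | h <;> rw [h] <;> ring

theorem base_ne' {s : ℚ → ℤ} {Op : ℝ} (hOp : 0 < Op) (hs : Symb2 s (fun q => ap E14 q))
    (hv : ∀ r : ℚ, (3 : ℝ) * (II r).re = s r * Op) {N : ℕ} [NeZero N]
    {L : Type} [Field L] [NumberField L] [IsCyclotomicExtension {N} ℚ L]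
    (F₁ : IntermediateField ℚ L) (S : Finset ℤ) (S0 : Finset ℕ) (hS : ∀ d ∈ S, Squarefree d)
    (hS0 : ∀ p ∈ S0, ∃ d ∈ S, p.Prime ∧ (p : ℤ) ∣ d)
    (hS0' : ∀ d ∈ S, d.natAbs.primeFactors ⊆ S0)
    (hA : ∀ A ⊆ S, RegZ (∏ d ∈ A, d))
    (hn : dd S0 ∣ N)
    (hF : F₁ ≤ IntermediateField.adjoin ℚ {z : L | ∃ d ∈ S, z ^ 2 = (d : L)})
    (χ : DirichletCharacter ℂ N) (hχ : χ ∈ YY N L F₁) :
    haveI : NeZero χ.conductor := ⟨χ.conductor_ne_zero⟩
    ∑ u : (ZMod χ.conductor)ˣ, (χ.primitiveCharacter)⁻¹ (u : ZMod χ.conductor) *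
      II (((u : ZMod χ.conductor).val : ℚ) / χ.conductor) ≠ 0 := by
  have hnz : NeZero χ.conductor := ⟨χ.conductor_ne_zero⟩
  have hreg : ∀ d ∈ S, ∃ n : ℕ, Reg n ∧ d = (n : ℤ) := by
    intro d hd
    have h1 := hA {d} (by simpa using hd)
    rw [prod_singleton] at h1
    exact h1.sqf (hS d hd)
  have h04 : ∀ q ∈ S0, q.Prime ∧ q % 4 = 1 := by
    intro q hq
    obtain ⟨d, hd, hqp, hqd⟩ := hS0 q hq
    obtain ⟨n, hn, rfl⟩ := hreg d hd
    exact ⟨hqp, hn.primes hqp (by exact_mod_cast hqd)⟩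
  have hp2 : ∀ q ∈ S0, q.Prime ∧ q ≠ 2 := fun q hq => ⟨(h04 q hq).1, by
    rintro rfl
    have := (h04 2 hq).2
    omega⟩
  obtain ⟨T, ⟨-, A, hAS, hTA⟩, hTS', hT⟩ := Pool.Agent.Y18.NF.YY_sub N L
    {T : Finset ℕ | T ⊆ S0 ∧ ∃ A ⊆ S, IsSquare (((∏ q ∈ T, q : ℕ) : ℤ) * ∏ d ∈ A, d)} S0 hp2 hn
    ⟨Finset.empty_subset _, ∅, Finset.empty_subset _, ⟨1, by simp⟩⟩ (by
      rintro U ⟨hU0, A, hA1, hA2⟩ V ⟨hV0, B, hB1, hB2⟩
      refine ⟨?_, A ∆ B, ?_, ?_⟩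
      · intro q hq
        rcases Finset.mem_symmDiff.1 hq with h | h
        · exact hU0 h.1
        · exact hV0 h.1
      · intro q hq
        rcases Finset.mem_symmDiff.1 hq with h | h
        · exact hA1 h.1
        · exact hB1 h.1
      · have hABne : ∏ d ∈ A ∩ B, d ≠ 0 := prod_ne_zero_iff.2 fun d hd =>
          (hS d (hA1 (mem_inter.1 hd).1)).ne_zero
        have hz : (∏ q ∈ U ∩ V, q : ℕ) ≠ 0 := prod_ne_zero_iff.2 fun q hq =>
          (h04 q (hU0 (mem_inter.1 hq).1)).1.ne_zero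
        have hw : ((∏ q ∈ U ∩ V, q : ℕ) : ℤ) * ∏ d ∈ A ∩ B, d ≠ 0 :=
          mul_ne_zero (by exact_mod_cast hz) hABne
        apply sq_of_mul hw
        have h5 : (∏ q ∈ U ∆ V, q : ℕ) * (∏ q ∈ U ∩ V, q : ℕ) ^ 2 =
          (∏ q ∈ U, q) * ∏ q ∈ V, q := prod_symm U V (fun q => q)
        have h6 := prod_symm A B (fun d => d)
        have h7 : ((∏ q ∈ U ∆ V, q : ℕ) : ℤ) * ((∏ q ∈ U ∩ V, q : ℕ) : ℤ) ^ 2 =
          ((∏ q ∈ U, q : ℕ) : ℤ) * ((∏ q ∈ V, q : ℕ) : ℤ) := by exact_mod_cast h5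
        have h8 : ((∏ q ∈ U ∆ V, q : ℕ) : ℤ) * (∏ d ∈ A ∆ B, d) *
            (((∏ q ∈ U ∩ V, q : ℕ) : ℤ) * ∏ d ∈ A ∩ B, d) ^ 2 =
            (((∏ q ∈ U, q : ℕ) : ℤ) * ∏ d ∈ A, d) * (((∏ q ∈ V, q : ℕ) : ℤ) * ∏ d ∈ B, d) := by
          linear_combination (∏ d ∈ A ∆ B, d) * (∏ d ∈ A ∩ B, d) ^ 2 * h7 +
            ((∏ q ∈ U, q : ℕ) : ℤ) * ((∏ q ∈ V, q : ℕ) : ℤ) * h6
        rw [h8]
        exact hA2.mul hB2) F₁ (by
      refine hF.trans (IntermediateField.adjoin.mono ℚ _ _ ?_)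
      rintro z ⟨d, hd, hz⟩
      obtain ⟨n, hn, hdn⟩ := hreg d hd
      have hnf : ∏ q ∈ n.primeFactors, q = n := Nat.prod_primeFactors_of_squarefree hn.sqf
      have hnS : n.primeFactors ⊆ S0 := by
        have := hS0' d hd
        rwa [hdn, Int.natAbs_natCast] at this
      refine ⟨n.primeFactors, ⟨hnS, {d}, by simpa using hd, ?_⟩, hnS, ?_⟩
      · rw [prod_singleton, hnf, hdn]
        exact ⟨(n : ℤ), rfl⟩
      · rw [hz, disc_eq, hnf, hdn]
        intro p hp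
        exact hn.primes (Nat.prime_of_mem_primeFactors hp) (Nat.dvd_of_mem_primeFactors hp)) hχ
  obtain ⟨n, hn', g, hg, hgA⟩ := hA A hAS
  have hTp : ∀ q ∈ T, q.Prime ∧ q ≠ 2 := fun q hq => hp2 q (hTS' hq)
  have hTn : dd T ∣ N := (dd_dvd hTS').trans hn
  have hTsq : Squarefree (∏ q ∈ T, q) := Y687.squarefree_prod fun q hq => (hTp q hq).1
  have hddn : dd T = n := by
    refine eq_of_sq hTsq hn'.sqf ?_
    apply sq_of_mul hg
    rw [mul_assoc, ← hgA]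
    exact hTA
  obtain ⟨ψ, hψ, hψj⟩ := H385.jac_char (dd T) (dd_odd hTp) (dd_sqfree fun q hq => (hTp q hq).1)
  have h2 : χ = DirichletCharacter.changeLevel hTn ψ := by
    apply MulChar.ext
    intro u
    rw [hT u, DirichletCharacter.changeLevel_eq_cast_of_dvd]
    have := hψj (u : ZMod N).val
    rw [ZMod.natCast_val] at this
    exact this.symm
  have hcond : χ.conductor = dd T := by
    rw [h2]
    exact Pool.Agent.Y682.XD.conductor_changeLevel hTn hψ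
  obtain ⟨T', P', hT', hP', hc', hnTP, hdet⟩ := hn'
  obtain ⟨o, ho, hsum⟩ := Pool.Agent.W2helper41.X.qval hs hv hP' hT' hc' χ.conductor
    (by rw [hcond, hddn, hnTP]) (χ.primitiveCharacter)⁻¹ (fun u => by
      have h3 := Pool.Agent.Y18.NF.pv_jac N hTp hTn hT (u : ZMod χ.conductor).val
      rw [ZMod.natCast_val, ZMod.cast_id', id] at h3
      have h5 : jacobiSym ((u : ZMod χ.conductor).val : ℤ) χ.conductor =
          jacobiSym ((u : ZMod χ.conductor).val : ℤ) (dd T) := congrArg _ hcond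
      rw [MulChar.inv_apply_eq_inv', h3, h5]
      have h4 : jacobiSym ((u : ZMod χ.conductor).val : ℤ) (dd T) = 1 ∨
          jacobiSym ((u : ZMod χ.conductor).val : ℤ) (dd T) = -1 := by
        rw [← h5]
        apply jacobiSym.eq_one_or_neg_one
        rw [Int.gcd_natCast_natCast]
        exact ZMod.val_coe_unit_coprime u
      rcases h4 with h4 | h4
      · rw [h4]; norm_num
      · rw [h4]; norm_num)
  rw [hsum]
  have ho0 : o ≠ 0 := by
    rintro rfl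
    apply hdet
    rw [← ho]; simp
  have h9 : (Op : ℂ) ≠ 0 := by exact_mod_cast hOp.ne'
  have h10 : (o : ℂ) ≠ 0 := by exact_mod_cast ho0
  exact div_ne_zero (mul_ne_zero (mul_ne_zero (pow_ne_zero _ two_ne_zero) h10) h9)
    (by norm_num)

end Pool.Agent.W2helper41.Y
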