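import Pool.Agent.Y682.XD.Fin
import Pool.Agent.W2helper41.Y.Bas

/-!
# The composites of multiquadratic and cyclotomic fields
-/

set_option autoImplicit false

open Finset NumberField IsCyclotomicExtension.Rat H300.HW IsDedekindDomain

namespace Pool.Agent.W2helper41.Y

open scoped Classical

open Pool.Agent.Y687 (Symb Symb2)

open Pool.Agent.Y682 (NCl)

open Pool.Agent.Y682.XT Pool.Agent.Y682.XD

open Pool.Agent.W97.MT (ap E14 II)

/-- the main theorem -/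
theorem main' (H : Parts) (q : ℕ) [NeZero q] (hq : IsPrimePow q) (hco : q.Coprime 14)
    (K : IntermediateField ℚ ℂ) [NumberField K]
    (hK : K ≤ IntermediateField.adjoin ℚ {z : ℂ | z ^ q = 1}) (hodd : Odd (Module.finrank ℚ K))
    (hcl : 3 ∣ q ∨ ((Ideal.span {((2 : ℕ) : 𝓞 K)}).IsPrime ∧
      (Ideal.span {((7 : ℕ) : 𝓞 K)}).IsPrime ∧ Odd (Nat.card (NCl K))))
    (S : Finset ℤ) (hS : HypS q K S) (hA : ∀ A ⊆ S, RegZ (∏ d ∈ A, d))
    (F₀ F : IntermediateField ℚ ℂ) [NumberField F₀]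
    [NumberField F] (hF₀ : F₀ = mq S) (hF : F = F₀ ⊔ K) :
    ∃ G₀ G : ℂ → ℂ, Differentiable ℂ G₀ ∧ Differentiable ℂ G ∧
      (∀ z : ℂ, 3 / 2 < z.re → HasProd (fE (K := F₀) z) (G₀ z)) ∧
      (∀ z : ℂ, 3 / 2 < z.re → HasProd (fE (K := F) z) (G z)) ∧
      G₀ 1 ≠ 0 ∧ G 1 ≠ 0 ∧ RR F₀ 1 = 0 ∧ RR F 1 = 0 := by
  -- the primes
  set S0 : Finset ℕ := S.biUnion fun d => d.natAbs.primeFactors with hS0
  have hmemS0 : ∀ p : ℕ, p ∈ S0 ↔ ∃ d ∈ S, p.Prime ∧ (p : ℤ) ∣ d := by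
    intro p
    rw [hS0, mem_biUnion]
    constructor
    · rintro ⟨d, hd, hp⟩
      exact ⟨d, hd, Nat.prime_of_mem_primeFactors hp,
        Int.natCast_dvd.2 (Nat.dvd_of_mem_primeFactors hp)⟩
    · rintro ⟨d, hd, hp, hpd⟩
      refine ⟨d, hd, Nat.mem_primeFactors.2 ⟨hp, Int.natCast_dvd.1 hpd, ?_⟩⟩
      intro h0
      have h1 := (hS d hd).2.1
      rw [Int.natAbs_eq_zero.1 h0] at h1
      omega
  have hS0p : ∀ p ∈ S0, p.Prime := fun p hp => by
    obtain ⟨d, -, h1, -⟩ := (hmemS0 p).1 hp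
    exact h1
  set P : Finset ℕ := S0.filter fun p => ¬ p ∣ q with hP
  set m : ℕ := ∏ p ∈ P, p with hm
  have hPp : ∀ p ∈ P, p.Prime := fun p hp => hS0p p (mem_filter.1 hp).1
  have hm0 : m ≠ 0 := prod_ne_zero_iff.2 fun p hp => (hPp p hp).ne_zero
  have hnz : NeZero (q * m) := ⟨Nat.mul_ne_zero (NeZero.ne q) hm0⟩
  have hmsq : Squarefree m := Pool.Agent.Y687.squarefree_prod hPp
  have hmP : ∀ p : ℕ, p.Prime → p ∣ m → p ∈ P := fun p hp h =>
    Pool.Agent.Y687.dvd_prod_primes hPp hp h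
  have hP14 : ∀ p ∈ P, ¬ p ∣ 14 ∧ ¬ p ∣ q ∧ (Ideal.span {((p : ℕ) : 𝓞 K)}).IsPrime := by
    intro p hp
    obtain ⟨h1, h2⟩ := mem_filter.1 hp
    obtain ⟨d, hd, h3, h4⟩ := (hmemS0 p).1 h1
    obtain ⟨h5, h6⟩ := (hS d hd).2.2 p h3 h4
    exact ⟨h5, h2, h6.resolve_left h2⟩
  have hmo : Odd m := by
    rw [hm]
    refine Finset.prod_induction _ Odd (fun _ _ => Odd.mul) odd_one fun r hr => ?_
    refine (hPp r hr).odd_of_ne_two ?_
    rintro rfl
    exact (hP14 2 hr).1 (by norm_num)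
  have hS0N : ∀ p ∈ S0, p ∣ q * m := by
    intro p hp
    by_cases h : p ∣ q
    · exact dvd_mul_of_dvd_left h _
    · exact dvd_mul_of_dvd_right (dvd_prod_of_mem _ (mem_filter.2 ⟨hp, h⟩)) _
  -- divisors
  have hdivN : ∀ T : Finset ℕ, T ⊆ S0 → (∏ p ∈ T, p) ∣ q * m := by
    intro T hT
    exact Finset.prod_primes_dvd _ (fun p hp => (hS0p p (hT hp)).prime) fun p hp => hS0N p (hT hp)
  have hdS : ∀ d ∈ S, d ∣ ((q * m : ℕ) : ℤ) ∧ d % 4 = 1 ∧ Squarefree d := by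
    intro d hd
    obtain ⟨h1, h2, -⟩ := hS d hd
    refine ⟨?_, h2, h1⟩
    rw [← Int.natAbs_dvd, Int.natCast_dvd_natCast]
    rw [← Nat.prod_primeFactors_of_squarefree (Int.squarefree_natAbs.2 h1)]
    exact hdivN _ (subset_biUnion_of_mem (fun d => d.natAbs.primeFactors) hd)
  -- the cyclotomic fields
  let L₁ := CyclotomicField q ℚ
  let L := CyclotomicField (q * m) ℚ
  have hc1 : IsCyclotomicExtension {q} ℚ L₁ := CyclotomicField.isCyclotomicExtension q ℚ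
  have hc : IsCyclotomicExtension {q * m} ℚ L := CyclotomicField.isCyclotomicExtension (q * m) ℚ
  obtain ⟨φ, ι, K₁, F₁, hK₁, hF₁, hF₁2⟩ := embz q (q * m) (dvd_mul_right q m) L₁ L K F₀ hK
    (S : Set ℤ) hdS hF₀
  -- the isomorphisms
  let eK : K ≃+* K₁ := ((IntermediateField.equivMap K₁ (φ.comp ι)).trans
    (IntermediateField.equivOfEq hK₁)).symm.toRingEquiv
  have hrk : Module.finrank ℚ K₁ = Module.finrank ℚ K :=
    ((IntermediateField.equivMap K₁ (φ.comp ι)).trans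
      (IntermediateField.equivOfEq hK₁)).toLinearEquiv.finrank_eq
  have hodd1 : Odd (Module.finrank ℚ K₁) := by rw [hrk]; exact hodd
  let e0 : F₁ ≃+* F₀ := ((IntermediateField.equivMap F₁ φ).trans
    (IntermediateField.equivOfEq hF₁)).toRingEquiv
  have hFmap : (F₁ ⊔ K₁.map ι : IntermediateField ℚ L).map φ = F := by
    rw [IntermediateField.map_sup, IntermediateField.map_map, hF, hF₁]
    congr 1
  let eF : (F₁ ⊔ K₁.map ι : IntermediateField ℚ L) ≃+* F :=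
    ((IntermediateField.equivMap _ φ).trans (IntermediateField.equivOfEq hFmap)).toRingEquiv
  -- the field `K₁`
  obtain ⟨h2, h7, hN⟩ : (Ideal.span {((2 : ℕ) : 𝓞 K₁)}).IsPrime ∧
      (Ideal.span {((7 : ℕ) : 𝓞 K₁)}).IsPrime ∧ Odd (Nat.card (NCl K₁)) := by
    rcases hcl with h3 | ⟨h2, h7, hN⟩
    · obtain ⟨n, hn⟩ : ∃ n, q = 3 ^ (n + 1) := by
        obtain ⟨l, k, hl, hk, rfl⟩ := hq
        have hl' := hl.nat_prime
        have h4 : l = 3 := ((Nat.prime_dvd_prime_iff_eq Nat.prime_three hl').1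
          (Nat.prime_three.dvd_of_dvd_pow h3)).symm
        subst h4
        exact ⟨k - 1, by rw [Nat.sub_add_cancel hk]⟩
      have key : ∀ (q' : ℕ) [NeZero q'] (M : Type) [Field M] [NumberField M]
          [IsCyclotomicExtension {q'} ℚ M] (n : ℕ), q' = 3 ^ (n + 1) →
          ∀ (K' : IntermediateField ℚ M), Odd (Module.finrank ℚ K') →
          (Ideal.span {((2 : ℕ) : 𝓞 K')}).IsPrime ∧
          (Ideal.span {((7 : ℕ) : 𝓞 K')}).IsPrime ∧ Odd (Nat.card (NCl K')) := by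
        intro q' _ M _ _ _ n hn K' hodd'
        subst hn
        exact three_hyp n M K' hodd'
      exact key q L₁ n hn K₁ hodd1
    · exact ⟨prime_tr eK 2 h2, prime_tr eK 7 h7, H.nclt K K₁ eK hN⟩
  obtain ⟨s, t, Op, Om, hSy⟩ := exists_sy
  have hypK : HypK s (fun l => ap E14 l) q L₁ K₁ :=
    hypK_of H.apev hSy hq hco hodd1 h2 h7 hN
  have hmgen : ∀ p : ℕ, p.Prime → p ∣ m → ¬ p ∣ 14 * q ∧
      ∀ t : (ZMod q)ˣ, (t : ZMod q) = (p : ZMod q) →
        ∀ x : GG q L₁ K₁, x ∈ Subgroup.zpowers (mkG q L₁ K₁ t) := by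
    intro p hp hpm
    obtain ⟨h3, h4, h5⟩ := hP14 p (hmP p hp hpm)
    refine ⟨?_, fun t ht => ?_⟩
    · intro h6
      rcases (hp.dvd_mul).1 h6 with h6 | h6
      · exact h3 h6
      · exact h4 h6
    · exact gen_of_prime (K := K₁) (L := L₁) Pool.Agent.Y692.XT.inert hp ht (prime_tr eK p h5)
  obtain ⟨G₀, Pr, hG₀, hPr, hPr1, htop, hE0, hE, hbase⟩ := ana Pool.Agent.Y884.XT.s_lk H.hecke
    H.cond H.cl H.dec H.nz hSy hypK hmo hmsq hmgen ι F₁ hF₁2
  -- the ranks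
  have hreal : ∀ w : InfinitePlace K₁, w.IsReal := by
    obtain ⟨φ', -⟩ := exists_phi q L₁
    exact real_place (φ := φ') hypK.hre
  have hOne : ∀ d ∈ S, Odd d ∧ OneP K₁ d := by
    intro d hd
    obtain ⟨h3, h4, h5⟩ := hS d hd
    refine ⟨Int.odd_iff.2 (by omega), fun p hp hpd v w hv hw => ?_⟩
    obtain ⟨-, h6⟩ := h5 p hp hpd
    rcases h6 with h6 | h6
    · have key : ∀ (q' : ℕ) [NeZero q'] (M : Type) [Field M] [NumberField M]
          [IsCyclotomicExtension {q'} ℚ M], IsPrimePow q' → p ∣ q' →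
          ∀ (K' : IntermediateField ℚ M) (v w : HeightOneSpectrum (𝓞 K')),
          ((p : ℕ) : 𝓞 K') ∈ v.asIdeal → ((p : ℕ) : 𝓞 K') ∈ w.asIdeal → v = w := by
        intro q' hz M _ _ _ hq' hpq' K' v w hv hw
        obtain ⟨l, k, hl, hk, rfl⟩ := hq'
        have hl' := hl.nat_prime
        have h4 : p = l := (Nat.prime_dvd_prime_iff_eq hp hl').1 (hp.dvd_of_dvd_pow hpq')
        subst h4
        obtain ⟨j, rfl⟩ : ∃ j, k = j + 1 := ⟨k - 1, by omega⟩
        exact H.ram p j hl' M K' v w hv hw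
      exact key q L₁ hq h6 K₁ v w hv hw
    · obtain ⟨u, -, hu⟩ := place_unique hp (prime_tr eK p h6)
      rw [(hu v).1 hv, (hu w).1 hw]
  have hr1 := (rank_stable H.qf H.deg2 H.sup H.tw H.rke K K₁ eK hreal hN hodd1 hodd
    (by exact_mod_cast h2) (by exact_mod_cast h7) S hOne).2 F₀ F hF₀ hF 1 odd_one
    (fun p hp h1 => by
      exfalso
      have h3 : (p : ℤ) ≤ 1 := Int.le_of_dvd one_pos h1
      have := hp.two_le
      omega)
  have hz0 : G₀ 1 ≠ 0 := by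
    refine hbase fun χ hχ => ?_
    refine base_ne' hSy.pos hSy.H hSy.re F₁ S S0 (fun d hd => (hS d hd).1)
      (fun p hp => (hmemS0 p).1 hp)
      (fun d hd => subset_biUnion_of_mem (fun d => d.natAbs.primeFactors) hd) hA
      (hdivN S0 (Finset.Subset.refl _)) ?_ χ hχ
    intro x hx
    have h4 : φ x ∈ F₀ := by
      rw [← hF₁]
      exact ⟨x, hx, rfl⟩
    set ZL : Set L := {z : L | ∃ d ∈ S, z ^ 2 = (d : L)} with hZL
    have h3 : F₀ ≤ (IntermediateField.adjoin ℚ ZL).map φ := by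
      rw [hF₀]
      unfold mq
      rw [IntermediateField.adjoin_le_iff]
      rintro z ⟨d, hd, hz⟩
      obtain ⟨h4, h5, h6⟩ := hdS d hd
      obtain ⟨g, hg⟩ := sqrt_memZ (q * m) L d h4 h5 h6
      have hgZ : g ∈ ZL := ⟨d, hd, hg⟩
      have h10 : (φ g) ^ 2 = (d : ℂ) := by rw [← map_pow, hg, map_intCast]
      rcases sq_eq_sq_iff_eq_or_eq_neg.1 (hz.trans h10.symm) with h | h
      · exact ⟨g, IntermediateField.subset_adjoin ℚ _ hgZ, h.symm⟩
      · exact ⟨-g, (IntermediateField.adjoin ℚ ZL).neg_mem (IntermediateField.subset_adjoin ℚ _ hgZ), by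
          show φ (-g) = z
          rw [map_neg, h]⟩
    obtain ⟨y, hy, hyx⟩ := h3 h4
    have h5 : y = x := φ.toRingHom.injective hyx
    rw [← h5]
    exact hy
  have hr0 : RR F₀ 1 = 0 := by
    refine (rank_zero' H.qf H.deg2 H.rke H.sq S fun d hd => (hS d hd).1.ne_zero).2 F₀ hF₀ 1
      one_ne_zero fun A hA' => ?_
    rw [one_mul]
    exact hA A hA'
  exact ⟨G₀, fun z => G₀ z * Pr z, hG₀, hG₀.mul hPr, fun z hz => H.tr F₁ F₀ e0 z _ (hE0 z hz),
    fun z hz => H.tr _ F eF z _ (hE z hz), hz0, mul_ne_zero hz0 hPr1, hr0, hr1.trans hr0⟩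

end Pool.Agent.W2helper41.Y
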