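import Pool.Agent.W2helper41.X.Exi
import Pool.Agent.W2helper41.Y.Fin
import Pool.Agent.Y461.XD.Cond
import Pool.Agent.Y944.XD.Cl
import Pool.Agent.Y971.XD.Dec
import Pool.Agent.Y839.XD.Sup
import Pool.Agent.Y421.XD.TR
import Pool.Agent.Y421.XD.Rke
import Pool.Agent.Y888.XD.Qf
import Pool.Agent.Y657.XD.Tw
import Pool.Agent.Y500.XD.Zero
import Pool.Agent.Y275.XD.Basel
import Pool.Agent.Y758.XD.NZ
import Pool.Agent.Y356.XD.Nclt
import Pool.Agent.Y153.XD.Sq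
import Pool.Agent.Y51.XD.Deg2
import Pool.Agent.Y419.XD.Ram
import Pool.Agent.Y688.XD.Hecke
import Pool.Agent.Y461.XD.Apev

/-!
# Examples of good sets
-/

set_option autoImplicit false

open Finset NumberField

namespace Pool.Agent.W2helper41.Y

open scoped Classical

open Pool.Agent.W2helper41.X (Spl Ine mat nr ns ns_eq_zero nr_mul)

open Pool.Agent.Y682.XD (mq)

/-- the inputs -/
theorem parts : Pool.Agent.Y682.XD.Parts where
  hecke := Pool.Agent.Y688.XD.s_hecke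
  apev := Pool.Agent.Y461.XD.s_apev
  basel := Pool.Agent.Y275.XD.s_basel
  cond := Pool.Agent.Y461.XD.s_cond
  cl := Pool.Agent.Y944.XD.s_cl
  dec := Pool.Agent.Y971.XD.s_dec
  sup := Pool.Agent.Y839.XD.s_sup
  tr := Pool.Agent.Y421.XD.s_tr
  rke := Pool.Agent.Y421.XD.s_rke
  qf := Pool.Agent.Y888.XD.s_qf
  tw := Pool.Agent.Y657.XD.s_tw
  zero := Pool.Agent.Y500.XD.s_zero
  nz := Pool.Agent.Y758.XD.s_nz
  nclt := Pool.Agent.Y356.XD.s_nclt
  sq := Pool.Agent.Y153.XD.s_sq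
  deg2 := Pool.Agent.Y51.XD.s_deg2
  ram := Pool.Agent.Y419.XD.s_ram

/-- inert primes that are squares do not change the local symbol -/
theorem nr_prod {p m : ℕ} (hp : Spl p) (hm4 : m % 4 = 1) (hpm : ¬ p ∣ m) (A : Finset ℕ)
    (hA : ∀ q ∈ A, Ine q ∧ IsSquare ((q : ℕ) : ZMod p)) :
    nr (m * ∏ q ∈ A, q) p = nr m p := by
  have key : ∀ B : Finset ℕ, B ⊆ A → (m * ∏ q ∈ B, q) % 4 = 1 ∧ ¬ p ∣ (m * ∏ q ∈ B, q) ∧
      nr (m * ∏ q ∈ B, q) p = nr m p := by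
    intro B
    induction B using Finset.induction_on with
    | empty => intro _; rw [prod_empty, mul_one]; exact ⟨hm4, hpm, rfl⟩
    | insert q B hq ih =>
      intro hB
      obtain ⟨h1, h2, h3⟩ := ih ((subset_insert _ _).trans hB)
      obtain ⟨h4, h5⟩ := hA q (hB (mem_insert_self _ _))
      have e : m * ∏ r ∈ insert q B, r = (m * ∏ r ∈ B, r) * q := by
        rw [prod_insert hq]; ring
      rw [e]
      refine ⟨?_, ?_, ?_⟩
      · rw [Nat.mul_mod, h1]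
        have := h4.2.1
        omega
      · rw [hp.1.dvd_mul, not_or]
        refine ⟨h2, fun h => ?_⟩
        have h6 := (Nat.prime_dvd_prime_iff_eq hp.1 h4.1).1 h
        have h7 := hp.2.1
        have h8 := h4.2.1
        omega
      · rw [nr_mul hp h1 h2 h4, h3, ns_eq_zero.2 h5, add_zero]
  exact (key A (Subset.refl _)).2.2

/-- the matrix does not change -/
theorem mat_prod {P : Finset ℕ} {m : ℕ} (hP : ∀ p ∈ P, Spl p) (hm4 : m % 4 = 1)
    (hpm : ∀ p ∈ P, ¬ p ∣ m) (A : Finset ℕ)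
    (hA : ∀ q ∈ A, Ine q ∧ ∀ p ∈ P, IsSquare ((q : ℕ) : ZMod p)) :
    mat P (m * ∏ q ∈ A, q) = mat P m := by
  ext j i
  unfold mat
  simp only [Matrix.of_apply]
  rw [nr_prod (hP j j.2) hm4 (hpm j j.2) A fun q hq => ⟨(hA q hq).1, (hA q hq).2 j j.2⟩]

theorem reg_inert {A : Finset ℕ} (hA : ∀ q ∈ A, Ine q) : Reg (∏ q ∈ A, q) := by
  refine ⟨A, ∅, hA, by simp, by simp, by simp, ?_⟩
  rw [Matrix.det_isEmpty]
  exact one_ne_zero

/-- the examples -/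
theorem reg_example {T P : Finset ℕ} (hT : ∀ q ∈ T, Ine q) (hP : ∀ p ∈ P, Spl p)
    (hc : P.card ≤ 2) (hdet : (mat P (∏ q ∈ T, q)).det ≠ 0) (A : Finset ℕ)
    (hA : ∀ q ∈ A, Ine q ∧ q ∉ T ∧ ∀ p ∈ P, IsSquare ((q : ℕ) : ZMod p)) :
    Reg (((∏ q ∈ T, q) * ∏ p ∈ P, p) * ∏ q ∈ A, q) := by
  have hdis : Disjoint T A := by
    rw [Finset.disjoint_left]
    intro q hq hqA
    exact (hA q hqA).2.1 hq
  refine ⟨T ∪ A, P, ?_, hP, hc, ?_, ?_⟩
  · intro q hq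
    rcases mem_union.1 hq with h | h
    · exact hT q h
    · exact (hA q h).1
  · rw [prod_union hdis]; ring
  · rw [prod_union hdis, mat_prod hP (Pool.Agent.W2helper41.X.T_four hT)
      (fun p hp => Y687.split_not_dvd (hP p hp) hT) A fun q hq => ⟨(hA q hq).1, (hA q hq).2.2⟩]
    exact hdet

/-- the field -/
theorem mq_nat (S : Finset ℕ) :
    IntermediateField.adjoin ℚ {z : ℂ | ∃ d ∈ S, z ^ 2 = (d : ℂ)} =
      mq (S.map Nat.castEmbedding) := by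
  unfold mq
  congr 1
  ext z
  constructor
  · rintro ⟨d, hd, hz⟩
    exact ⟨(d : ℤ), mem_map.2 ⟨d, hd, rfl⟩, by rw [hz]; norm_cast⟩
  · rintro ⟨d, hd, hz⟩
    obtain ⟨n, hn, rfl⟩ := mem_map.1 hd
    exact ⟨n, hn, by rw [hz]; simp⟩

/-- the hypothesis on the subsets -/
theorem regz_of {S : Finset ℕ} (hA : ∀ A ⊆ S, ∃ d g : ℕ, Reg d ∧ 0 < g ∧ ∏ n ∈ A, n = d * g ^ 2) :
    ∀ A ⊆ S.map (Nat.castEmbedding (R := ℤ)), RegZ (∏ d ∈ A, d) := by
  intro A hAS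
  obtain ⟨B, hB, rfl⟩ := subset_map_iff.1 hAS
  obtain ⟨d, g, hd, hg, h⟩ := hA B hB
  refine ⟨d, hd, g, by omega, ?_⟩
  rw [prod_map]
  have h2 : ((∏ n ∈ B, n : ℕ) : ℤ) = (d : ℤ) * (g : ℤ) ^ 2 := by rw [h]; push_cast; ring
  rw [← h2, Nat.cast_prod]
  rfl

/-- infinitely many inert primes that are squares modulo the primes of `P` -/
theorem infinite_sq {P T : Finset ℕ} (hP : ∀ p ∈ P, Spl p) :
    {q : ℕ | Ine q ∧ q ∉ T ∧ ∀ p ∈ P, IsSquare ((q : ℕ) : ZMod p)}.Infinite := by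
  obtain ⟨t, ht, h45, htP⟩ := Pool.Agent.W2helper41.X.exists_res P hP fun _ => 0
  have hN : NeZero (56 * ∏ p ∈ P, p) :=
    ⟨Nat.mul_ne_zero (by norm_num) (prod_ne_zero_iff.2 fun p hp => (hP p hp).1.ne_zero)⟩
  have hunit : IsUnit ((t : ℕ) : ZMod (56 * ∏ p ∈ P, p)) := by
    rw [ZMod.isUnit_iff_coprime]
    exact ht
  have hinf := Nat.infinite_setOfPred_prime_and_eq_mod hunit
  refine (hinf.sdiff (T.finite_toSet)).mono ?_
  rintro q ⟨⟨hq, hqn⟩, hqS⟩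
  rw [ZMod.natCast_eq_natCast_iff] at hqn
  have hq1 : q ≡ 45 [MOD 56] := (hqn.of_mul_right _).trans h45
  have hq56 : q % 56 = 45 := hq1
  refine ⟨⟨hq, by omega, by omega⟩, fun h => hqS (by simpa using h), fun p hp => ?_⟩
  have hcong : q ≡ t [MOD p] := by
    refine hqn.of_dvd ?_
    exact dvd_mul_of_dvd_right (dvd_prod_of_mem _ hp) _
  rw [(ZMod.natCast_eq_natCast_iff _ _ _).2 hcong]
  exact ns_eq_zero.1 (htP p hp)

end Pool.Agent.W2helper41.Y
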